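import Pool.Agent.P8H73.GM.Mono
import Pool.Agent.P8H20.GM.Sie
import Pool.Agent.P8H20.GM.Up
import Pool.Agent.P8H44.GM.Id
import Pool.Agent.P8H44.GM.All
import Pool.Agent.P8H71.GM.Low
import Pool.Agent.P8H71.GM.Small
import Pool.Agent.P8H53.GM.Fin
import Pool.Agent.P8H53.GM.Cor

/-! Project GM: assembly. -/

set_option autoImplicit false

namespace Pool.Agent.P8H73.GM

theorem up_ok : S_UP := Pool.Agent.P8H20.GM.up hi mer

theorem low_ok : S_LOW := Pool.Agent.P8H71.GM.low up_ok mer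

theorem small_ok : S_SMALL := Pool.Agent.P8H71.GM.small Pool.Agent.P8H44.GM.id low_ok mer

theorem all_ok : S_ALL := Pool.Agent.P8H44.GM.all small_ok mono mer

theorem fin_ok : S_FIN := Pool.Agent.P8H53.GM.fin all_ok Pool.Agent.P8H20.GM.sie red mer

theorem cor_ok : S_COR := Pool.Agent.P8H53.GM.cor fin_ok mer

end Pool.Agent.P8H73.GM
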