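import Pool.Agent.P8H73.GM.Stm
import Pool.Agent.Helper256.KM.Mertens
import Pool.Agent.H343R2.PhiSum

/-!
Packages MER, HI, RED of project GM.
-/

set_option autoImplicit false

namespace Pool.Agent.P8H73.GM

open Finset Pool.Agent.H376R2.MR Pool.Agent.H376R2.TT

theorem log_floor {x : ℝ} (hx : 1 ≤ x) :
    1 ≤ ⌊x⌋₊ ∧ Real.log x - 1 ≤ Real.log (⌊x⌋₊ : ℝ) ∧ Real.log (⌊x⌋₊ : ℝ) ≤ Real.log x := by
  have h1 : 1 ≤ ⌊x⌋₊ := (Nat.one_le_floor_iff x).2 hx
  have h2 : (1 : ℝ) ≤ (⌊x⌋₊ : ℝ) := by exact_mod_cast h1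
  have h3 : x < (⌊x⌋₊ : ℝ) + 1 := Nat.lt_floor_add_one x
  have h4 : (⌊x⌋₊ : ℝ) ≤ x := Nat.floor_le (by linarith)
  refine ⟨h1, ?_, Real.log_le_log (by linarith) h4⟩
  have h5 : Real.log x ≤ Real.log (2 * (⌊x⌋₊ : ℝ)) := Real.log_le_log (by linarith) (by linarith)
  rw [Real.log_mul (by norm_num) (by linarith)] at h5
  have h6 : Real.log 2 ≤ 1 := by
    have := Real.log_two_lt_d9
    linarith
  linarith

theorem mer : S_MER := by
  obtain ⟨C, hC⟩ := Pool.Agent.Helper256.KM.mertens_log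
  refine ⟨|C| + 1, by linarith [abs_nonneg C], fun x hx => ?_⟩
  obtain ⟨h1, h2, h3⟩ := log_floor hx
  have h4 := hC ⌊x⌋₊ h1
  rw [abs_le] at h4 ⊢
  have := le_abs_self C
  constructor <;> linarith [h4.1, h4.2]

theorem sw_G_upper : ∃ C : ℝ, 0 < C ∧ ∀ n : ℕ, 1 ≤ n → sw_G n ≤ Real.log n + C := by
  obtain ⟨C, hC, h⟩ := H343.PhiSum.totient_upper
  refine ⟨C, hC, fun n hn => ?_⟩
  refine le_trans (le_of_eq ?_) (h n hn)
  unfold sw_G H343.LL H343.Mod sw_g
  rw [Finset.sum_filter]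
  have : Ioc 0 n = Icc 1 n := by
    ext m
    simp only [mem_Ioc, mem_Icc]
    omega
  rw [this]

theorem hi : S_HI := by
  obtain ⟨C, hC0, hC⟩ := sw_G_upper
  refine ⟨C + 1, by linarith, fun A B hA hAB => ?_⟩
  by_cases hB : 1 ≤ B
  swap
  · have : ⌊B⌋₊ = 0 := by
      rw [Nat.floor_eq_zero]
      push Not at hB
      exact hB
    rw [this]
    simp only [Nat.lt_one_iff, pos_of_gt, Icc_eq_empty_of_lt, filter_empty, sum_empty]
    have : 0 ≤ Real.log (B / A) := Real.log_nonneg (by rw [le_div_iff₀ hA]; linarith)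
    linarith
  obtain ⟨h1, h2, h3⟩ := log_floor hB
  rw [Real.log_div (by linarith) hA.ne']
  by_cases hA1 : 1 ≤ A
  · obtain ⟨g1, g2, g3⟩ := log_floor hA1
    have hfl : ⌊A⌋₊ ≤ ⌊B⌋₊ := Nat.floor_le_floor hAB
    have e1 : sw_G ⌊B⌋₊ = sw_G ⌊A⌋₊ +
        ∑ n ∈ (Icc 1 ⌊B⌋₊).filter (fun n : ℕ => A < (n : ℝ)), sw_g n := by
      unfold sw_G
      rw [← Finset.sum_filter_add_sum_filter_not (Icc 1 ⌊B⌋₊) (fun n : ℕ => A < (n : ℝ)), add_comm]
      congr 1
      apply Finset.sum_congr _ (fun _ _ => rfl)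
      ext m
      simp only [mem_filter, mem_Icc, not_lt]
      constructor
      · rintro ⟨⟨a, b⟩, c⟩
        exact ⟨a, Nat.le_floor c⟩
      · rintro ⟨a, b⟩
        exact ⟨⟨a, b.trans hfl⟩, (Nat.le_floor_iff (by linarith)).1 b⟩
    have h4 := hC _ h1
    have h5 := sw_G_ge _ g1
    linarith
  · push Not at hA1
    have e1 : ∑ n ∈ (Icc 1 ⌊B⌋₊).filter (fun n : ℕ => A < (n : ℝ)), sw_g n ≤ sw_G ⌊B⌋₊ :=
      Finset.sum_le_sum_of_subset_of_nonneg (Finset.filter_subset _ _) (fun i _ _ => sw_g_nonneg i)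
    have h4 := hC _ h1
    have h6 : Real.log A ≤ 0 := Real.log_nonpos hA.le hA1.le
    linarith

theorem coprime_pr (K : Finset ℕ) (hK : ∀ p ∈ K, p.Prime) (m : ℕ) :
    m.Coprime (pr K) ↔ ∀ p ∈ K, ¬ p ∣ m := by
  unfold pr
  rw [Nat.coprime_prod_right_iff]
  refine forall₂_congr fun p hp => ?_
  rw [Nat.coprime_comm, Nat.Prime.coprime_iff_not_dvd (hK p hp)]

theorem red : S_RED := by
  intro k D hk
  unfold G selwq_G
  apply Finset.sum_congr rfl
  intro m hm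
  rw [mem_Icc] at hm
  have hprime : ∀ p ∈ k.primeFactors.filter (fun p => p ≤ D), p.Prime := by
    intro p hp
    rw [mem_filter] at hp
    exact Nat.prime_of_mem_primeFactors hp.1
  have : m.Coprime k ↔ m.Coprime (pr (k.primeFactors.filter (fun p => p ≤ D))) := by
    rw [coprime_pr _ hprime]
    constructor
    · intro h p hp hpm
      rw [mem_filter] at hp
      have := Nat.dvd_gcd hpm (Nat.dvd_of_mem_primeFactors hp.1)
      rw [h] at this
      exact (Nat.prime_of_mem_primeFactors hp.1).one_lt.ne' (Nat.dvd_one.1 this)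
    · intro h
      by_contra hc
      obtain ⟨p, hp, hpm, hpk⟩ := Nat.Prime.not_coprime_iff_dvd.1 hc
      refine h p ?_ hpm
      rw [mem_filter]
      exact ⟨Nat.mem_primeFactors.2 ⟨hp, hpk, by omega⟩, (Nat.le_of_dvd (by omega) hpm).trans hm.2⟩
  unfold selwq_g
  by_cases h : m.Coprime k
  · rw [if_pos h, if_pos (this.1 h)]
  · rw [if_neg h, if_neg (fun h' => h (this.2 h'))]

end Pool.Agent.P8H73.GM
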