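import Pool.Agent.P8H73.GM.Base

/-!
Package MONO of project GM.
-/

set_option autoImplicit false

namespace Pool.Agent.P8H73.GM

open Finset Pool.Agent.H376R2.MR Pool.Agent.H376R2.TT

theorem V_pos (K : Finset ℕ) (hK : ∀ p ∈ K, p.Prime) : 0 < V K := by
  unfold V
  refine Finset.prod_pos fun p hp => ?_
  have h2 : (2 : ℝ) ≤ p := by exact_mod_cast (hK p hp).two_le
  have h3 : 1 / (p : ℝ) < 1 := by
    rw [div_lt_one (by linarith)]
    linarith
  linarith

theorem G_nonneg (K : Finset ℕ) (D : ℕ) : 0 ≤ G K D := by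
  unfold G selwq_G
  exact Finset.sum_nonneg fun m _ => selwq_g_nonneg _ m

theorem pr_insert {K : Finset ℕ} {p : ℕ} (hp : p ∉ K) : pr (insert p K) = p * pr K := by
  unfold pr
  rw [Finset.prod_insert hp]

theorem add_one (K : Finset ℕ) (hK : ∀ p ∈ K, p.Prime) (p : ℕ) (hp : p.Prime) (hpK : p ∉ K) (D : ℕ) :
    G K D ≤ (1 + 1 / ((p : ℝ) - 1)) * G (insert p K) D := by
  classical
  have hK' : ∀ r ∈ insert p K, r.Prime := by
    intro r hr
    rw [mem_insert] at hr
    rcases hr with rfl | hr
    · exact hp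
    · exact hK r hr
  have hp2 : (2 : ℝ) ≤ p := by exact_mod_cast hp.two_le
  have e1 : ∀ m : ℕ, ¬ p ∣ m → selwq_g (pr K) m = selwq_g (pr (insert p K)) m := by
    intro m hm
    have : m.Coprime (pr K) ↔ m.Coprime (pr (insert p K)) := by
      rw [coprime_pr K hK, coprime_pr _ hK']
      constructor
      · intro h r hr
        rw [mem_insert] at hr
        rcases hr with rfl | hr
        · exact hm
        · exact h r hr
      · intro h r hr
        exact h r (mem_insert_of_mem hr)
    unfold selwq_g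
    by_cases h : m.Coprime (pr K)
    · rw [if_pos h, if_pos (this.1 h)]
    · rw [if_neg h, if_neg (fun h' => h (this.2 h'))]
  have hpc : p.Coprime (pr K) := by
    rw [coprime_pr K hK]
    intro r hr hrp
    have := (Nat.prime_dvd_prime_iff_eq (hK r hr) hp).1 hrp
    exact hpK (this ▸ hr)
  have e2 : selwq_g (pr K) p = 1 / ((p : ℝ) - 1) := by
    unfold selwq_g sw_g
    rw [if_pos hpc, if_pos hp.squarefree, Nat.totient_prime hp, Nat.cast_sub hp.one_le, Nat.cast_one]
  have e3 : ∑ m ∈ (Icc 1 D).filter (fun m => p ∣ m), selwq_g (pr K) m ≤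
      1 / ((p : ℝ) - 1) * G (insert p K) D := by
    have h1 : ∀ m ∈ (Icc 1 D).filter (fun m => p ∣ m), selwq_g (pr K) m ≤
        1 / ((p : ℝ) - 1) * selwq_g (pr (insert p K)) (m / p) := by
      intro m hm
      rw [mem_filter, mem_Icc] at hm
      obtain ⟨⟨hm1, hmD⟩, m', rfl⟩ := hm
      rw [Nat.mul_div_cancel_left _ hp.pos]
      by_cases hs : Squarefree (p * m')
      · have hcop := sw_coprime hs
        have hpm : ¬ p ∣ m' := (Nat.Prime.coprime_iff_not_dvd hp).1 hcop
        rw [selwq_g_mul _ hcop, e2, e1 m' hpm]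
      · rw [selwq_g_zero hs]
        have : 0 ≤ 1 / ((p : ℝ) - 1) := by
          apply div_nonneg zero_le_one
          linarith
        exact mul_nonneg this (selwq_g_nonneg _ _)
    refine (Finset.sum_le_sum h1).trans ?_
    rw [← Finset.mul_sum]
    apply mul_le_mul_of_nonneg_left _ (div_nonneg zero_le_one (by linarith))
    unfold G selwq_G
    have hinj : Set.InjOn (fun m : ℕ => m / p) ((Icc 1 D).filter (fun m => p ∣ m) : Finset ℕ) := by
      intro a ha b hb hab
      rw [mem_coe, mem_filter] at ha hb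
      obtain ⟨a', rfl⟩ := ha.2
      obtain ⟨b', rfl⟩ := hb.2
      simp only [Nat.mul_div_cancel_left _ hp.pos] at hab
      rw [hab]
    rw [← Finset.sum_image (f := fun m => selwq_g (pr (insert p K)) m) hinj]
    apply Finset.sum_le_sum_of_subset_of_nonneg
    · intro a ha
      rw [mem_image] at ha
      obtain ⟨m, hm, rfl⟩ := ha
      rw [mem_filter, mem_Icc] at hm
      obtain ⟨⟨hm1, hmD⟩, m', rfl⟩ := hm
      rw [Nat.mul_div_cancel_left _ hp.pos, mem_Icc]
      constructor
      · rcases Nat.eq_zero_or_pos m' with h | h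
        · rw [h] at hm1
          simp at hm1
        · exact h
      · exact (Nat.le_mul_of_pos_left m' hp.pos).trans hmD
    · intro i _ _
      exact selwq_g_nonneg _ i
  have e4 : ∑ m ∈ (Icc 1 D).filter (fun m => ¬ p ∣ m), selwq_g (pr K) m ≤ G (insert p K) D := by
    unfold G selwq_G
    rw [Finset.sum_congr rfl (fun m hm => e1 m (mem_filter.1 hm).2)]
    exact Finset.sum_le_sum_of_subset_of_nonneg (Finset.filter_subset _ _) (fun i _ _ => selwq_g_nonneg _ i)
  have e5 : G K D = ∑ m ∈ (Icc 1 D).filter (fun m => p ∣ m), selwq_g (pr K) m +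
      ∑ m ∈ (Icc 1 D).filter (fun m => ¬ p ∣ m), selwq_g (pr K) m := by
    rw [Finset.sum_filter_add_sum_filter_not]
    rfl
  rw [e5, add_mul, one_mul]
  linarith

theorem mono : S_MONO := by
  classical
  intro K K' hK hsub D _
  have key : ∀ T : Finset ℕ, (∀ p ∈ T, p.Prime) → Disjoint K' T → (∀ p ∈ K', p.Prime) →
      G K' D / V K' ≤ G (K' ∪ T) D / V (K' ∪ T) := by
    intro T
    induction T using Finset.induction_on with
    | empty => intro _ _ _; rw [Finset.union_empty]
    | insert p T hpT ih =>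
      intro hT hd hK'
      have hT' : ∀ q ∈ T, q.Prime := fun q hq => hT q (mem_insert_of_mem hq)
      have hd' : Disjoint K' T := Finset.disjoint_of_subset_right (Finset.subset_insert p T) hd
      refine (ih hT' hd' hK').trans ?_
      have hp : p.Prime := hT p (mem_insert_self p T)
      have hp2 : (2 : ℝ) ≤ p := by exact_mod_cast hp.two_le
      have hpK : p ∉ K' ∪ T := by
        rw [mem_union]
        rintro (h | h)
        · exact Finset.disjoint_left.1 hd h (mem_insert_self p T)
        · exact hpT h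
      have hU : ∀ q ∈ K' ∪ T, q.Prime := by
        intro q hq
        rw [mem_union] at hq
        rcases hq with h | h
        · exact hK' q h
        · exact hT' q h
      have hVp := V_pos _ hU
      have e1 : K' ∪ insert p T = insert p (K' ∪ T) := by
        rw [Finset.union_insert]
      rw [e1]
      have e2 : V (insert p (K' ∪ T)) = (1 - 1 / (p : ℝ)) * V (K' ∪ T) := by
        unfold V
        rw [Finset.prod_insert hpK]
      have h1 := add_one (K' ∪ T) hU p hp hpK D
      have hf : 0 < 1 - 1 / (p : ℝ) := by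
        have : 1 / (p : ℝ) < 1 := by
          rw [div_lt_one (by linarith)]
          linarith
        linarith
      have e3 : (1 - 1 / (p : ℝ)) * (1 + 1 / ((p : ℝ) - 1)) = 1 := by
        have : (p : ℝ) - 1 ≠ 0 := by linarith
        field_simp
        ring
      rw [e2, div_le_div_iff₀ hVp (mul_pos hf hVp)]
      calc G (K' ∪ T) D * ((1 - 1 / (p : ℝ)) * V (K' ∪ T)) =
          ((1 - 1 / (p : ℝ)) * V (K' ∪ T)) * G (K' ∪ T) D := by ring
        _ ≤ ((1 - 1 / (p : ℝ)) * V (K' ∪ T)) * ((1 + 1 / ((p : ℝ) - 1)) * G (insert p (K' ∪ T)) D) :=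
            mul_le_mul_of_nonneg_left h1 (mul_pos hf hVp).le
        _ = ((1 - 1 / (p : ℝ)) * (1 + 1 / ((p : ℝ) - 1))) * (G (insert p (K' ∪ T)) D * V (K' ∪ T)) := by
            ring
        _ = G (insert p (K' ∪ T)) D * V (K' ∪ T) := by rw [e3, one_mul]
  have h := key (K \ K') (fun p hp => hK p (mem_sdiff.1 hp).1) Finset.disjoint_sdiff
    (fun p hp => hK p (hsub hp))
  rwa [Finset.union_sdiff_of_subset hsub] at h

end Pool.Agent.P8H73.GM
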