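import Pool.Agent.H376R2.TT.Selwq

/-!
# Project GM: the inequality of Brun and Titchmarsh with a gain from the prime factors of the modulus

Hard row MP_26a8c3_nt. Aim (`S_FIN`, `S_COR`): there are absolute `c, C > 0` such that for ALL moduli `k`, all classes
`l` and all real `x ≥ y` with `y / k` large

`N(x, y; k, l) ≤ 2 y / (φ(k) (log (y / k) + c ∑_{p ∣ k, p ≤ y / k} log p / p - 2 log log (y / k) - C))`,

so the constant of Brun and Titchmarsh is `2 - c η` for all moduli with `∑_{p ∣ k, p ≤ y / k} log p / p ≥ η log (y / k)`, for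
instance for all `k` divisible by all primes up to `(y / k) ^ η`, at EVERY position `x`, however large.

From the starting file `H376R2/TT/Selwq.lean` (and `H376R2/MR/Selw.lean`): `sw_g m = 1 / φ(m)` for squarefree `m` and `0`
otherwise; `selwq_g q m = sw_g m` if `(m, q) = 1`, otherwise `0`; `sw_G D`, `selwq_G q D` are their sums over `1 ≤ m ≤ D`.
Known there: `sw_g_mul`, `selwq_g_mul`, `sw_sum`, `selwq_totient`, `selwq_G_le`, `selwq_G_ge`, `sw_G_ge : log D ≤ sw_G D`,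
`selwq_l`, `selwq_form`, `selwq_key`, `sel_weights_q` (weights with `|l d| ≤ 1`).
Here `pr K` is the product of the primes of the finite set `K`, `V K = φ(pr K) / pr K`.

All constants are absolute. Nothing in this project is asymptotic in several parameters; every package is elementary.
-/

set_option autoImplicit false

namespace Pool.Agent.P8H73.GM

open Finset Pool.Agent.H376R2.MR Pool.Agent.H376R2.TT

/-- the product of the members of `K` -/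
def pr (K : Finset ℕ) : ℕ := ∏ p ∈ K, p

/-- `∏ (1 - 1 / p)` over `K` -/
noncomputable def V (K : Finset ℕ) : ℝ := ∏ p ∈ K, (1 - 1 / (p : ℝ))

/-- `∑ log p / p` over `K` -/
noncomputable def Mm (K : Finset ℕ) : ℝ := ∑ p ∈ K, Real.log p / (p : ℝ)

/-- the sum of `1 / φ(m)` over the squarefree `m ≤ D` without prime factors in `K` -/
noncomputable def G (K : Finset ℕ) (D : ℕ) : ℝ := selwq_G (pr K) D

/-- the number of the primes `p ≡ l` modulo `k` with `x - y < p ≤ x` -/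
noncomputable def N (x y : ℝ) (k : ℕ) (l : ℤ) : ℕ :=
  {p : ℕ | p.Prime ∧ x - y < (p : ℝ) ∧ (p : ℝ) ≤ x ∧ (p : ℤ) ≡ l [ZMOD (k : ℤ)]}.ncard

/-- `∑ log p / p` over the prime divisors `p ≤ z` of `k` -/
noncomputable def Mk (k : ℕ) (z : ℝ) : ℝ :=
  ∑ p ∈ k.primeFactors.filter (fun p : ℕ => (p : ℝ) ≤ z), Real.log p / (p : ℝ)

/-- MER (20 lines; `Pool.Agent.Helper256.KM.mertens_log` in Pool.Agent.Helper256.KM.Mertens is this for natural numbers;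
`log x - log ⌊x⌋ ≤ log 2`). -/
def S_MER : Prop := ∃ C : ℝ, 1 ≤ C ∧ ∀ x : ℝ, 1 ≤ x →
  |∑ p ∈ (Icc 1 ⌊x⌋₊).filter Nat.Prime, Real.log p / (p : ℝ) - Real.log x| ≤ C

/-- HI (40 lines). The sum of `μ²(n) / φ(n)` over `A < n ≤ B`. Proof: `H343.PhiSum.totient_upper` (Pool.Agent.H343R2.PhiSum)
says `sw_G N ≤ log N + C` (there `LL 0 N`, the sum over the squarefree `q` with `0 < q ≤ N`, see `H343R2/Defs.lean`). If
`A < 1` this is enough. If `A ≥ 1`, the sum is `sw_G ⌊B⌋ - sw_G ⌊A⌋ ≤ log B + C - log ⌊A⌋` by `sw_G_ge`, and `⌊A⌋ ≥ A / 2`. -/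
def S_HI : Prop := ∃ C : ℝ, 1 ≤ C ∧ ∀ A B : ℝ, 0 < A → A ≤ B →
  ∑ n ∈ (Icc 1 ⌊B⌋₊).filter (fun n : ℕ => A < (n : ℝ)), sw_g n ≤ Real.log (B / A) + C

/-- UP (150 lines; may assume `S_HI` and `S_MER`): a sieve bound for the numbers coprime to the primes of `K` in `(t / L, t]`.

Proof. Put `K' = K.filter (· ≤ L)`, `q = pr K'`, `F = 1 / V K' = ∑_{l ∣ q} sw_g l` (this is `selwq_totient`; `pr K'` is
squarefree; `V K' = φ(q) / q`). Let `T` be the sum on the left.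
(a) For squarefree `m` prime to `q` and `l ∣ q` the numbers `l m` are different for different pairs `(l, m)` (`l = gcd (l m, q)`) and
`sw_g (l m) = sw_g l * sw_g m`. For `l ≤ L ^ 2` and `t / L < m ≤ t` we have `t / L < l m ≤ t L ^ 2`. So
`(∑_{l ∣ q, l ≤ L ^ 2} sw_g l) * T ≤ ∑_{t / L < n ≤ t L ^ 2} sw_g n ≤ 3 log L + C` by `S_HI` (numbers `m` coprime to `pr K` are
coprime to `q`, and `selwq_g (pr K) m ≤ sw_g m`).
(b) `∑_{l ∣ q} sw_g l * log l = ∑_{p ∣ q} log p ∑_{l ∣ q, p ∣ l} sw_g l = ∑_{p ∣ q} (log p / p) F = Mm K' * F` (the divisors of `q`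
which are multiples of `p` are the `p l'`, `l' ∣ q / p`, and `F = (1 + 1 / (p - 1)) ∑_{l' ∣ q / p} sw_g l'`). By `S_MER`
`Mm K' ≤ log L + C₀`. So `∑_{l ∣ q, l > L ^ 2} sw_g l ≤ (log L + C₀) / (2 log L) * F ≤ (3 / 4) F` if `log L ≥ 2 C₀`, and
`T ≤ 4 V K' (3 log L + C)`.
(c) If `log L < 2 C₀` then `V K' ≥ ∏_{p ≤ exp (2 C₀)} (1 - 1 / p) > 0`, a constant, and `T ≤ log L + C` by `S_HI` directly. -/
def S_UP : Prop := ∃ C : ℝ, 1 ≤ C ∧ ∀ K : Finset ℕ, (∀ p ∈ K, p.Prime) → ∀ (L : ℕ) (t : ℝ), 2 ≤ L → 0 < t →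
  ∑ m ∈ (Icc 1 ⌊t⌋₊).filter (fun m : ℕ => t / (L : ℝ) < (m : ℝ)), selwq_g (pr K) m ≤
    C * Real.log L * V (K.filter (fun p => p ≤ L))

/-- ID (150 lines): the gain.

Proof. Let `R = pr K` (squarefree), `V K = φ(R) / R`. Every squarefree `n ≤ D` is `l m` with `l = gcd (n, R)`, `m` prime to `R`,
`m ≤ D / l`. As in the proof of `selwq_G_le` (copy it, with `D / l` in the place of `D`):
`log D ≤ sw_G D ≤ ∑_{l ∣ R} sw_g l * selwq_G R (D / l)`. As `∑_{l ∣ R} sw_g l = 1 / V K` (`selwq_totient`):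
`G K D / V K - log D ≥ ∑_{l ∣ R} sw_g l (G K D - G K (D / l))`, and all terms are nonnegative. Keep only the `l = p l₀` with
`p ∈ S`, `l₀ ∣ R₀ = pr (K \ S)`: they are different divisors of `R`, `sw_g (p l₀) = sw_g l₀ / (p - 1) ≥ sw_g l₀ / p`,
`G K (D / (p l₀)) ≤ G K (D / p)` and `∑_{l₀ ∣ R₀} sw_g l₀ = 1 / V (K \ S) = V S / V K`. -/
def S_ID : Prop := ∀ K S : Finset ℕ, (∀ p ∈ K, p.Prime) → S ⊆ K → ∀ D : ℕ, 1 ≤ D →
  Real.log D + V S * ∑ p ∈ S, 1 / (p : ℝ) * ((G K D - G K (D / p)) / V K) ≤ G K D / V K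

/-- MONO (80 lines). Proof: by induction it is enough to add one prime `p` to `K'`: every `m` prime to `pr K'` is prime to
`p pr K'` or is `p m'`, `m' ≤ D` prime to `p pr K'` (for squarefree `m`), so `G K' D ≤ (1 + 1 / (p - 1)) G (insert p K') D`,
and `1 + 1 / (p - 1) = 1 / (1 - 1 / p)`. -/
def S_MONO : Prop := ∀ K K' : Finset ℕ, (∀ p ∈ K, p.Prime) → K' ⊆ K → ∀ D : ℕ, 1 ≤ D →
  G K' D / V K' ≤ G K D / V K

/-- LOW (200 lines; may assume `S_UP` and `S_MER`): there are many `m` prime to `K` in `(D / L, D]` if `K` is not rich.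

Proof. Let `q = pr K`, `h = selwq_g q`, `u = log D`, `ℓ = log L` (so `4 ℓ ≤ u`), `M = Mm K`, `T = G K D - G K (D / L)`, the sum of
`h m` over `D / L < m ≤ D`, that is `D < m L`, `m ≤ D`.
(1) `u T ≥ ∑_m h(m) log m = ∑_m h(m) ∑_{r ∣ m} log r ≥ ∑_{m' ≤ √D} h(m') ∑_r log r / r`, the last sum over the primes `r ∉ K`,
`r ∤ m'`, `D / (L m') < r ≤ D / m'`: the pairs `(m', r)` give different pairs `(m, r)`, `m = m' r`, `h(m' r) = h(m') / (r - 1)`.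
(2) The inner sum is at least `∑_{D / (L m') < r ≤ D / m'} log r / r` (all primes; at least `ℓ - 2 C₀` by `S_MER`, as
`D / (L m') ≥ 1`) minus `S(m')`, the sum over the `r ∈ K` in the same interval, minus the sum over `r ∣ m'`,
`r > D / (L m') ≥ D ^ (1/4)`, which is at most `D ^ (-1/4) ∑_{r ∣ m'} log r ≤ D ^ (-1/4) u / 2 ≤ 2`.
(3) `∑_{m' ≤ √D} h(m') S(m') ≤ ∑_{r ∈ K} (log r / r) ∑_{D / (L r) < m' ≤ D / r} h(m') ≤ M C₁ ℓ V (K.filter (· ≤ L))`, by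
`S_UP` with `t = D / r`.
(4) `V (K.filter (· ≤ L)) ≤ V K * exp (2 ∑_{r ∈ K, r > L} 1 / r) ≤ exp 4 * V K`, because
`∑_{r ∈ K, r > L} 1 / r ≤ M / ℓ ≤ 2`.
(5) `∑_{m' ≤ √D} h(m') = G K ⌊√D⌋ ≥ V K * log ⌊√D⌋ ≥ V K (u / 2 - 1)` (`selwq_G_ge`).
Together `u T ≥ V K ((ℓ - 2 C₀ - 2) (u / 2 - 1) - C₁ exp 4 * η u ℓ) ≥ V K (1 / 8) u ℓ` for `η = 1 / (8 C₁ exp 4)` and
`C = 8 (2 C₀ + 2)` (then `ℓ - 2 C₀ - 2 ≥ (7/8) ℓ` and `u / 2 - 1 ≥ (3/8) u`). -/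
def S_LOW : Prop := ∃ η C : ℝ, 0 < η ∧ η ≤ 1 ∧ 1 ≤ C ∧ ∀ (K : Finset ℕ) (D L : ℕ), (∀ p ∈ K, p.Prime ∧ p ≤ D) →
  L ^ 4 ≤ D → C ≤ Real.log L → Mm K ≤ 2 * Real.log L → Mm K ≤ η * Real.log D →
  1 / 8 * Real.log L ≤ (G K D - G K (D / L)) / V K

/-- SMALL (120 lines; may assume `S_ID`, `S_LOW`, `S_MER`).

Proof. Let `u = log D`, `M = Mm K`, `η₁, C₁` the constants of `S_LOW`, `C₀ ≥ 1` the one of `S_MER`, `η = min (η₁, 1 / 20)`. If
`M ≤ 2 C₁`, `S_ID` with `S = ∅` gives `u ≤ G K D / V K`. Otherwise `u ≥ M / η ≥ 40 C₁`. Let `S` be the set of the `p ∈ K` with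
`log p ≥ M / 2` (`≥ C₁`). For `p ∈ S` we have `(G K D - G K (D / p)) / V K ≥ (1 / 40) log p`: if `p ^ 4 ≤ D` this is `S_LOW` for
`L = p`; if `p ^ 4 > D` let `L` be the largest integer with `L ^ 4 ≤ D`, then `log L ≥ u / 4 - log 2 ≥ u / 5 ≥ C₁`,
`M ≤ u / 20 ≤ 2 log L`, `L < p`, so `D / p ≤ D / L` and the difference is at least the one for `L`, `≥ (1 / 8) (u / 5)`.
`V S ≥ exp (- 2 ∑_{p ∈ S} 1 / p) ≥ exp (- 4)`, since `1 / p ≤ (2 / M) (log p / p)` on `S`. Hence by `S_ID`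
`G K D / V K ≥ u + exp (- 4) * (1 / 40) * Mm S`, and `Mm S ≥ M - (M / 2 + C₀)` by `S_MER` at `exp (M / 2)`. -/
def S_SMALL : Prop := ∃ η c C : ℝ, 0 < η ∧ η ≤ 1 ∧ 0 < c ∧ c ≤ 1 / 8 ∧ 0 < C ∧ ∀ (K : Finset ℕ) (D : ℕ),
  (∀ p ∈ K, p.Prime ∧ p ≤ D) → 2 ≤ D → Mm K ≤ η * Real.log D →
  Real.log D + c * Mm K - C ≤ G K D / V K

/-- ALL (80 lines; may assume `S_SMALL`, `S_MONO`, `S_MER`).

Proof. `M = Mm K ≤ log D + C₀` by `S_MER`. If `M ≤ η log D` this is `S_SMALL`. If `log D ≤ 2 / η` then `M` is bounded and the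
claim follows from `log D ≤ G K D / V K` (`selwq_G_ge`, or `S_MONO` with `K' = ∅` and `sw_G_ge`). Otherwise remove primes one
by one from `K`: as `log p / p ≤ 1 / 2 ≤ ...`, there is `K' ⊆ K` with `η log D / 2 ≤ Mm K' ≤ η log D` (each step changes `Mm` by
at most `1 / 2 ≤ η log D / 2`; `log D > 2 / η`). By `S_MONO` and `S_SMALL`
`G K D / V K ≥ G K' D / V K' ≥ log D + c η log D / 2 - C ≥ log D + (c η / 2) (M - C₀) - C`. -/
def S_ALL : Prop := ∃ c C : ℝ, 0 < c ∧ c ≤ 1 / 8 ∧ 0 < C ∧ ∀ (K : Finset ℕ) (D : ℕ),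
  (∀ p ∈ K, p.Prime ∧ p ≤ D) → 2 ≤ D → Real.log D + c * Mm K - C ≤ G K D / V K

/-- RED (40 lines): only the prime factors up to `D` matter. (`m ≤ D` is prime to `k` iff it is prime to the product of the
prime factors `p ≤ D` of `k`.) -/
def S_RED : Prop := ∀ k D : ℕ, 1 ≤ k → selwq_G k D = G (k.primeFactors.filter (fun p => p ≤ D)) D

/-- SIE (150 lines): the sieve of Selberg.

Proof. Weights `λ d = selwq_l k D d` (`λ 1 = 1`, `|λ d| ≤ 1`, `λ d = 0` for `d > D` or `(d, k) > 1`; compare the theorem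
`wts` in Pool/Agent/P8H73/RP/Sel.lean, and `sel_weights_q`), `∑ λ d λ e / [d, e] = 1 / selwq_G k D` (`selwq_form`). Let `A` be the
finite set of the natural numbers `n ≡ l` modulo `k` with `x - y < n ≤ x`. The primes `p ∈ A` are at most `D`, or satisfy
`∑_{d ∣ p, d ≤ D} λ d = λ 1 = 1`. So `N ≤ D + ∑_{n ∈ A} (∑_{d ∣ n, d ≤ D} λ d) ^ 2 = D + ∑_{d, e} λ d λ e #{n ∈ A : [d, e] ∣ n}`. For
`(d e, k) = 1` the last number differs from `y / (k [d, e])` by at most `1` (the `n` form one class modulo `k [d, e]`, by the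
Chinese remainder theorem). -/
def S_SIE : Prop := ∀ (k D : ℕ) (l : ℤ) (x y : ℝ), 1 ≤ k → 1 ≤ D → 0 < y → y ≤ x →
  (N x y k l : ℝ) ≤ y / k / selwq_G k D + (D : ℝ) ^ 2 + D

/-- FIN (150 lines; may assume `S_ALL`, `S_SIE`, `S_RED`, `S_MER`).

Proof. `H = y / k`, `L = log H` large, `D = ⌊√H / L⌋` (so `log D ≥ L / 2 - log L - 1`, `D ≤ √H / L`, `D ^ 2 + D ≤ 2 H / L ^ 2`),
`K = k.primeFactors.filter (· ≤ D)`, `K₂` the prime factors `p` of `k` with `D < p ≤ H`. `c`, `C` from `S_ALL`.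
(1) `g = G K D / V K ≥ log D + c Mm K - C ≥ L / 4`. (2) `k / φ(k) ≥ (1 / V K) ∏_{p ∈ K₂} (1 - 1 / p)⁻¹ ≥ (1 / V K) (1 + ∑_{K₂} 1 / p) ≥
(1 / V K) (1 + Mm K₂ / L)`. (3) So `1 / selwq_G k D = 1 / (V K g) ≤ (k / φ(k)) / (g (1 + Mm K₂ / L)) ≤ (k / φ(k)) / (g + Mm K₂ / 4)`, and
`g + Mm K₂ / 4 ≥ A := L / 2 - log L - 1 - C + c Mk k H` as `c ≤ 1 / 4`. (4) By `S_SIE`
`N ≤ (k / φ(k)) H (1 / A + 2 / L ^ 2) ≤ (k / φ(k)) H / (A - 2)`, because `4 ≤ A ≤ L` (`Mk k H ≤ L + C₀`, `c ≤ 1 / 8`) and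
`1 / (A - 2) - 1 / A ≥ 2 / A ^ 2 ≥ 2 / L ^ 2`. (5) `(k / φ(k)) H / (A - 2) = 2 y / (φ(k) (L + 2 c Mk k H - 2 log L - 2 C - 6))`. -/
def S_FIN : Prop := ∃ c C H₀ : ℝ, 0 < c ∧ 0 < C ∧ 3 ≤ H₀ ∧ ∀ (k : ℕ) (l : ℤ) (x y : ℝ), 1 ≤ k → y ≤ x → H₀ ≤ y / k →
  1 ≤ Real.log (y / k) + c * Mk k (y / k) - 2 * Real.log (Real.log (y / k)) - C ∧
  (N x y k l : ℝ) ≤ 2 * y / (Nat.totient k *
    (Real.log (y / k) + c * Mk k (y / k) - 2 * Real.log (Real.log (y / k)) - C))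

/-- COR (100 lines; may assume `S_FIN` and `S_MER`).

Proof. (1) Let `c` be as in `S_FIN`, and `c' = min (c / 4, 1)`. For `L = log (y / k)` large in terms of `η` (we may assume
`η ≤ 2`, otherwise there is no such `k` for large `L`, by `S_MER`; or use `min (η, 1)`) the last bracket of `S_FIN` is at least
`L (1 + c η - (2 log L + C) / L) ≥ L (1 + c η / 2)` and `2 / (1 + t) ≤ 2 - t` for `0 ≤ t ≤ 1`; a factor two is kept for the strict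
inequality. (2) If all primes up to `w` divide `k` and `k w ≤ y ≤ k w ^ A` then `Mk k (y / k) ≥ log w - C₀ ≥ (1 / (2 A)) log (y / k)`. -/
def S_COR : Prop := ∃ c : ℝ, 0 < c ∧
  (∀ η : ℝ, 0 < η → η ≤ 1 → ∃ H₁ : ℝ, 3 ≤ H₁ ∧ ∀ (k : ℕ) (l : ℤ) (x y : ℝ), 1 ≤ k → y ≤ x → H₁ ≤ y / k →
    η * Real.log (y / k) ≤ Mk k (y / k) →
    (N x y k l : ℝ) < (2 - c * η) * y / (Nat.totient k * Real.log (y / k))) ∧
  (∀ A : ℝ, 1 ≤ A → ∃ w₀ : ℝ, 3 ≤ w₀ ∧ ∀ (k : ℕ) (l : ℤ) (x y w : ℝ), 1 ≤ k → y ≤ x → w₀ ≤ w →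
    (∀ p : ℕ, p.Prime → (p : ℝ) ≤ w → p ∣ k) → k * w ≤ y → y ≤ k * w ^ A →
    (N x y k l : ℝ) < (2 - c / A) * y / (Nat.totient k * Real.log (y / k)))

end Pool.Agent.P8H73.GM
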